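import Pool.Agent.Helper13.RG.Stmts

/-!
# GBC: existence of base changes
-/

set_option autoImplicit false

open scoped Classical

namespace Pool.Agent.Helper33.RG

open Pool.Agent.Helper14.BSC Pool.Agent.Helper13.ZL Pool.Agent.Helper13.RG

theorem gbc_isBC {k Ω : Type} [Field k] [Field Ω] [Algebra k Ω] (D : Sec k Ω)
    (S : Set (Acl k Ω)) (hS : ∀ (g : GG k Ω), ∀ a ∈ S, g a ∈ S)
    (D₁ : Sec (IntermediateField.adjoin k ((fun a : Acl k Ω => (a : Ω)) '' S)) Ω)
    (h : ∀ x : Ω, x ∈ LL D₁ ↔ x ∈ NN D S) :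
    IsBC (algebraMap k (IntermediateField.adjoin k ((fun a : Acl k Ω => (a : Ω)) '' S))) D D₁ := by
  refine ⟨fun c => rfl, ?_, ?_, ?_⟩
  · intro x hx
    rw [h]
    exact NN_le D (fun g _ a ha => absurd ha (Set.notMem_empty a)) hx
  · intro g c
    have h1 : D.s g (c : Ω) ∈
        (IntermediateField.adjoin k ((fun a : Acl k Ω => (a : Ω)) '' S)).map
          ((D.s g : Ω ≃ₐ[k] Ω) : Ω →ₐ[k] Ω) := by
      exact ⟨(c : Ω), c.2, rfl⟩
    rw [IntermediateField.adjoin_map] at h1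
    have h2 : IntermediateField.adjoin k
        ((((D.s g : Ω ≃ₐ[k] Ω) : Ω →ₐ[k] Ω) : Ω → Ω) '' ((fun a : Acl k Ω => (a : Ω)) '' S)) ≤
        IntermediateField.adjoin k ((fun a : Acl k Ω => (a : Ω)) '' S) := by
      apply IntermediateField.adjoin.mono
      rintro _ ⟨_, ⟨a, ha, rfl⟩, rfl⟩
      exact ⟨g a, hS g a ha, (D.ext g a).symm⟩
    exact ⟨⟨D.s g (c : Ω), h2 h1⟩, rfl⟩
  · intro g x hx
    rw [h] at hx ⊢
    intro f hf
    have h1 : g⁻¹ * f * g ∈ Stab S := by
      intro a ha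
      have e1 : (g⁻¹ * f * g) a = g⁻¹ (f (g a)) := rfl
      rw [e1, hf (g a) (hS g a ha)]
      have e2 : g⁻¹ (g a) = (g⁻¹ * g) a := rfl
      rw [e2, inv_mul_cancel]
      rfl
    have h2 := hx _ h1
    have h3 : D.s f (D.s g x) = D.s g (D.s (g⁻¹ * f * g) x) := by
      have e1 : D.s f (D.s g x) = D.s (f * g) x := by
        rw [map_mul]
        rfl
      have e2 : D.s g (D.s (g⁻¹ * f * g) x) = D.s (g * (g⁻¹ * f * g)) x := by
        rw [map_mul D.s g]
        rfl
      rw [e1, e2]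
      congr 2
      group
    rw [h3, h2]

theorem st_GBC (hBCS : Pool.Agent.Helper22.FF.ST_BCS) : ST_GBC := by
  intro k Ω _ _ _ _ _ D D' X
  choose E hE using D.fin
  choose E' hE' using D'.fin
  let E0 : Finset (Acl k Ω) := X.biUnion (fun x => E x ∪ E' x)
  let S : Set (Acl k Ω) := ⋃ a ∈ E0, (minpoly k a).rootSet (Acl k Ω)
  have hfin : S.Finite := by
    apply Set.Finite.biUnion (Finset.finite_toSet E0)
    intro a _
    exact Polynomial.rootSet_finite _ _
  have hne : ∀ a : Acl k Ω, minpoly k a ≠ 0 := fun a =>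
    minpoly.ne_zero (Algebra.IsAlgebraic.isAlgebraic (R := k) a).isIntegral
  have hsub : ∀ a ∈ E0, a ∈ S := by
    intro a ha
    simp only [S, Set.mem_iUnion]
    refine ⟨a, ha, ?_⟩
    rw [Polynomial.mem_rootSet]
    exact ⟨hne a, minpoly.aeval k a⟩
  have hst : ∀ (g : GG k Ω), ∀ a ∈ S, g a ∈ S := by
    intro g a ha
    simp only [S, Set.mem_iUnion] at ha ⊢
    obtain ⟨b, hb, hab⟩ := ha
    refine ⟨b, hb, ?_⟩
    rw [Polynomial.mem_rootSet] at hab ⊢
    refine ⟨hab.1, ?_⟩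
    have : Polynomial.aeval (g a) (minpoly k b) = g (Polynomial.aeval a (minpoly k b)) :=
      Polynomial.aeval_algHom_apply (g : Acl k Ω →ₐ[k] Acl k Ω) a (minpoly k b)
    rw [this, hab.2, map_zero]
  obtain ⟨D₁, hD₁⟩ := hBCS k Ω D S _ rfl
  obtain ⟨D₁', hD₁'⟩ := hBCS k Ω D' S _ rfl
  have hfinS : Finite ((fun a : Acl k Ω => (a : Ω)) '' S) := (hfin.image _).to_subtype
  have hfd : FiniteDimensional k
      (IntermediateField.adjoin k ((fun a : Acl k Ω => (a : Ω)) '' S)) := by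
    apply IntermediateField.finiteDimensional_adjoin
    rintro _ ⟨a, _, rfl⟩
    exact ((Algebra.IsAlgebraic.isAlgebraic (R := k) a).isIntegral).map
      (IntermediateField.val (Acl k Ω))
  have hnf : NumberField (IntermediateField.adjoin k ((fun a : Acl k Ω => (a : Ω)) '' S)) :=
    NumberField.of_module_finite k _
  refine ⟨_, inferInstance, hnf, inferInstance,
    algebraMap k (IntermediateField.adjoin k ((fun a : Acl k Ω => (a : Ω)) '' S)),
    D₁, D₁', gbc_isBC D S hst D₁ hD₁, gbc_isBC D' S hst D₁' hD₁', ?_⟩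
  intro x hx
  constructor
  · rw [hD₁]
    intro g hg
    apply hE x g
    intro a ha
    exact hg a (hsub a (Finset.mem_biUnion.2 ⟨x, hx, Finset.mem_union_left _ ha⟩))
  · rw [hD₁']
    intro g hg
    apply hE' x g
    intro a ha
    exact hg a (hsub a (Finset.mem_biUnion.2 ⟨x, hx, Finset.mem_union_right _ ha⟩))

end Pool.Agent.Helper33.RG
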